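import Pool.Agent.Q276.DA.All
import Pool.Agent.Q144.DA.Arg
import Pool.Agent.Q144.DA.ArcC

/-!
# D'Arcais polynomials do not vanish at the nonzero integer points of the imaginary axis

`P_0 = 1`, `P_n(x) = (x/n) ∑_{k=1}^n σ(k) P_{n-k}(x)`. For all `n` and all integers `t ≠ 0` one has
`P_n(it) ≠ 0`; and for all `n` and all real `t` with `|t| ≥ 10^11` one has `P_n(it) ≠ 0`.

Proof. (1) For `p = 3, 11, 19, 43, 47, 59, 67, 71` the Gaussian integer `n! P_n(it)` is not divisible
by `p` when `p` does not divide `t` (its residue class is a product of classes of `r! P_r(is)`,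
`r ≤ p`, and these are computed). So the integers `t` with a zero are divisible by the product of
the eight primes, hence `|t| > 10^11`. (2) For `|x| ≥ 15 n` no zeros (induction). (3) For
`t ≥ 10^11` and `15 n > t`: the saddle point method, with explicit constants and uniformly in
`n/t ≥ 1/15`, applied to `P_n(it) = (1/2πi) ∫ exp(it G(z) + nz) dz`, `G(z) = ∑ σ(k)/k e^{-kz}`;
the line of integration passes through the saddle point and the modular transformation of the
Eisenstein series `E_2` gives the monotonicity of the integrand on both sides of it.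
-/

set_option autoImplicit false

namespace Pool.Agent.Results.MP_d73f62_nt.IntegerPoints

open Polynomial

/-- The D'Arcais polynomials: `P_0 = 1` and `P_{n+1} = (X/(n+1)) ∑_{k=0}^{n} σ(k+1) P_{n-k}`, where
`σ(m)` is the sum of the divisors of `m`. -/
noncomputable def darcais : ℕ → ℚ[X]
  | 0 => 1
  | (n + 1) => C (1 / ((n : ℚ) + 1)) * X *
      ∑ k : Fin (n + 1), C ((∑ d ∈ ((k : ℕ) + 1).divisors, d : ℕ) : ℚ) * darcais (n - (k : ℕ))
  termination_by n => n

theorem aeval_darcais (x : ℂ) (n : ℕ) : aeval x (darcais n) = Pool.Agent.Q276.DA.P x n := by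
  induction n using Nat.strong_induction_on with
  | _ n ih =>
    rcases n with _ | n
    · rw [darcais, Pool.Agent.Q276.DA.P_zero, map_one]
    · rw [darcais, Pool.Agent.Q276.DA.P, map_mul, map_mul, map_sum, aeval_C, aeval_X]
      congr 1
      · simp
        ring
      · apply Finset.sum_congr rfl
        intro k _
        rw [map_mul, aeval_C, ih (n - (k : ℕ)) (by omega)]
        simp [Pool.Agent.Q276.DA.sg]

/-- **MP_d73f62_nt, Q2 in full, and a part of Q1.** -/
theorem result :
    (∀ n : ℕ, 1 ≤ n → ∀ t : ℤ, t ≠ 0 → aeval ((t : ℂ) * Complex.I) (darcais n) ≠ 0) ∧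
    ∀ n : ℕ, 1 ≤ n → ∀ t : ℝ, 10 ^ 11 ≤ |t| → aeval ((t : ℂ) * Complex.I) (darcais n) ≠ 0 := by
  refine ⟨fun n _ t ht => ?_, fun n _ t ht => ?_⟩
  · rw [aeval_darcais]
    exact Pool.Agent.Q276.DA.int_all Pool.Agent.Q276.DA.all_ZF Pool.Agent.Q276.DA.all_BIG
      (Pool.Agent.Q144.DA.t_ARG Pool.Agent.Q276.DA.t_REC) Pool.Agent.Q144.DA.t_ARC t ht n
  · rw [aeval_darcais]
    exact Pool.Agent.Q276.DA.all_large t ht n

end Pool.Agent.Results.MP_d73f62_nt.IntegerPoints
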